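import Pool.Agent.W295.PR.Stm

/-! Project PR (MP_35c333_an): the concrete system (part CD). -/

set_option autoImplicit false

open Topology

namespace Pool.Agent.W91.PR.CD

open Pool.Agent.W295.PR

section
variable {G : Type} [Group G] [TopologicalSpace G] [IsTopologicalGroup G]
  {H H' : Subgroup G} {C : Type} [CommGroup C] [TopologicalSpace C]

lemma ra_smul (B : Bun H H' C) (c : C) (g : G) (z : G ⧸ H) :
    g • B.ra c z = B.ra c (g • z) := by
  obtain ⟨x, rfl⟩ := B.pr_surj c
  obtain ⟨h, rfl⟩ := QuotientGroup.mk_surjective z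
  have h1 := B.ra_mk x h
  have h2 := B.ra_mk x (g * h)
  change g • B.ra (B.pr x) ((h : G) : G ⧸ H) = B.ra (B.pr x) (((g * h : G)) : G ⧸ H)
  rw [h1, h2, mul_assoc]
  rfl

lemma ra_mul (B : Bun H H' C) (c d : C) (z : G ⧸ H) :
    B.ra (c * d) z = B.ra c (B.ra d z) := by
  obtain ⟨x, rfl⟩ := B.pr_surj c
  obtain ⟨y, rfl⟩ := B.pr_surj d
  obtain ⟨h, rfl⟩ := QuotientGroup.mk_surjective z
  have h1 := B.ra_mk y h
  have h2 := B.ra_mk x (h * (y : G))
  have h3 := B.ra_mk (y * x) h
  rw [mul_comm (B.pr x) (B.pr y), ← B.pr_mul]
  change B.ra (B.pr (y * x)) ((h : G) : G ⧸ H) = B.ra (B.pr x) (B.ra (B.pr y) ((h : G) : G ⧸ H))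
  rw [h1, h2, h3, Subgroup.coe_mul, mul_assoc]

lemma ra_one (B : Bun H H' C) (z : G ⧸ H) : B.ra 1 z = z := by
  obtain ⟨h, rfl⟩ := QuotientGroup.mk_surjective z
  have h0 : B.pr 1 = 1 := (B.pr_ker 1).mpr (by simp [H.one_mem])
  have h1 := B.ra_mk 1 h
  rw [h0] at h1
  change B.ra 1 ((h : G) : G ⧸ H) = ((h : G) : G ⧸ H)
  rw [h1, Subgroup.coe_one, mul_one]

lemma sg_sg (h1 : S_EV) (N : Nil G) (D : ℕ) (e f : ℤ) (y : RR D → G ⧸ H) :
    sg N D e (sg N D f y) = sg N D (e + f) y := by
  funext q
  have h := h1 D e f q q
  have h' := h1 D f e q q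
  show N.a ^ (ev D e q) • (N.a ^ (ev D f (tau D e q)) • y (tau D f (tau D e q))) =
    N.a ^ (ev D (e + f) q) • y (tau D (e + f) q)
  rw [h.1, h'.2.1, smul_smul, ← zpow_add, add_comm f e]
  congr 2
  ring

lemma sg_zero (h1 : S_EV) (N : Nil G) (D : ℕ) (y : RR D → G ⧸ H) : sg N D 0 y = y := by
  funext q
  have h := h1 D 0 0 q q
  show N.a ^ (ev D 0 q) • y (tau D 0 q) = y q
  rw [h.2.2.1, h.2.2.2.2.2.2.2, zpow_zero, one_smul]

lemma sg_cont (N : Nil G) (D : ℕ) (e : ℤ) : Continuous (sg N (H := H) D e) := by
  apply continuous_pi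
  intro q
  exact (continuous_const_smul _).comp (continuous_apply _)

end

theorem main (h1 : S_EV) (h2 : S_PPn) : S_CD := by
  intro G _ _ _ N D H H' C _ _ _ B
  have p2 := h2 G N D
  let TT : (RR D → G ⧸ H) ≃ₜ (RR D → G ⧸ H) :=
    { toFun := fun y q => N.a • y q
      invFun := fun y q => N.a⁻¹ • y q
      left_inv := fun y => by funext q; simp
      right_inv := fun y => by funext q; simp
      continuous_toFun := continuous_pi fun q => (continuous_const_smul _).comp (continuous_apply _)
      continuous_invFun := continuous_pi fun q =>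
        (continuous_const_smul _).comp (continuous_apply _) }
  let SS : (RR D → G ⧸ H) ≃ₜ (RR D → G ⧸ H) :=
    { toFun := fun y => sg N D 1 y
      invFun := fun y => sg N D (-1) y
      left_inv := fun y => by
        show sg N D (-1) (sg N D 1 y) = y
        rw [sg_sg h1]; exact sg_zero h1 N D y
      right_inv := fun y => by
        show sg N D 1 (sg N D (-1) y) = y
        rw [sg_sg h1]; exact sg_zero h1 N D y
      continuous_toFun := sg_cont N D 1
      continuous_invFun := sg_cont N D (-1) }
  let E : Dyn (RR D → G ⧸ H) (RR D → C) (PP N D) :=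
    { ac := fun c y q => B.ra (c q) (y q)
      ac_one := fun y => funext fun q => ra_one B (y q)
      ac_mul := fun c d y => funext fun q => ra_mul B (c q) (d q) (y q)
      ac_cont := by
        apply continuous_pi
        intro q
        have c1 : Continuous fun p : (RR D → C) × (RR D → G ⧸ H) => p.1 q :=
          (continuous_apply q).comp continuous_fst
        have c2 : Continuous fun p : (RR D → C) × (RR D → G ⧸ H) => p.2 q :=
          (continuous_apply q).comp continuous_snd
        exact B.ra_cont.comp (c1.prodMk c2)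
      ap := fun g y => act (g : RR D → G) y
      ap_one := fun y => funext fun q => one_smul G (y q)
      ap_mul := fun g h y => funext fun q => mul_smul _ _ (y q)
      ap_cont := by
        apply continuous_pi
        intro q
        have c1 : Continuous fun p : (PP N D) × (RR D → G ⧸ H) => (p.1 : RR D → G) q :=
          (continuous_apply q).comp (continuous_subtype_val.comp continuous_fst)
        have c2 : Continuous fun p : (PP N D) × (RR D → G ⧸ H) => p.2 q :=
          (continuous_apply q).comp continuous_snd
        exact c1.smul c2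
      comm := fun g c y => funext fun q => ra_smul B (c q) _ (y q)
      T := TT
      S := SS
      θ := fun c q => c (tau D 1 q)
      θ' := fun c q => c (tau D (-1) q)
      θ_mul := fun c d => rfl
      θ_θ' := fun c => by
        funext q
        show c (tau D (-1) (tau D 1 q)) = c q
        rw [(h1 D (-1) 1 q q).2.1]
        show c (tau D 0 q) = c q
        rw [(h1 D 0 0 q q).2.2.1]
      θ'_θ := fun c => by
        funext q
        show c (tau D 1 (tau D (-1) q)) = c q
        rw [(h1 D 1 (-1) q q).2.1]
        show c (tau D 0 q) = c q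
        rw [(h1 D 0 0 q q).2.2.1]
      θ_cont := continuous_pi fun q => continuous_apply _
      θ'_cont := continuous_pi fun q => continuous_apply _
      T_ac := fun c y => funext fun q => ra_smul B (c q) _ (y q)
      S_ac := fun c y => funext fun q => ra_smul B (c (tau D 1 q)) _ (y (tau D 1 q))
      t := fun g => ⟨fun q => N.a⁻¹ * (g : RR D → G) q * N.a, p2.2.2.1 _ g.2⟩
      s := fun g => ⟨cj N D (-1) (g : RR D → G), p2.1 _ _ g.2⟩
      t_cont := by
        apply Continuous.subtype_mk
        apply continuous_pi
        intro q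
        have c1 : Continuous fun p : PP N D => (p : RR D → G) q :=
          (continuous_apply q).comp continuous_subtype_val
        exact (continuous_const.mul c1).mul continuous_const
      s_cont := by
        apply Continuous.subtype_mk
        apply continuous_pi
        intro q
        have c1 : Continuous fun p : PP N D => (p : RR D → G) (tau D (-1) q) :=
          (continuous_apply _).comp continuous_subtype_val
        exact (continuous_const.mul c1).mul continuous_const
      t_eq := fun g y => by
        funext q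
        show (N.a⁻¹ * (g : RR D → G) q * N.a) • y q = N.a⁻¹ • ((g : RR D → G) q • (N.a • y q))
        rw [smul_smul, smul_smul, mul_assoc]
      s_eq := fun g y => by
        funext q
        show (N.a ^ (ev D (-1) q) * (g : RR D → G) (tau D (-1) q) * (N.a ^ (ev D (-1) q))⁻¹) • y q =
          N.a ^ (ev D (-1) q) • ((g : RR D → G) (tau D (-1) q) •
            (N.a ^ (ev D 1 (tau D (-1) q)) • y (tau D 1 (tau D (-1) q))))
        have e1 : ev D 1 (tau D (-1) q) = - ev D (-1) q := by
          rw [(h1 D (-1) 1 q q).1]
          show ev D 0 q - ev D (-1) q = _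
          rw [(h1 D 0 0 q q).2.2.2.2.2.2.2, zero_sub]
        have e2 : tau D 1 (tau D (-1) q) = q := by
          rw [(h1 D 1 (-1) q q).2.1]
          show tau D 0 q = q
          rw [(h1 D 0 0 q q).2.2.1]
        rw [e1, e2, zpow_neg, smul_smul, smul_smul, mul_assoc]
      w := w0 H D }
  exact ⟨E, fun _ _ => rfl, fun _ _ => rfl, fun _ => rfl, fun _ => rfl, fun _ => rfl, fun _ => rfl,
    fun _ => rfl, fun _ => rfl, fun _ => rfl, fun _ => rfl, rfl⟩

end Pool.Agent.W91.PR.CD
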